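import Mathlib

set_option autoImplicit false

open scoped Pointwise

namespace Pool.Agent.Lib.MP_8113ca_al

/-- `n` is a `π`-number: every prime divisor of `n` lies in `π`. -/
def IsPiNumber (π : Set ℕ) (n : ℕ) : Prop := ∀ p : ℕ, p.Prime → p ∣ n → p ∈ π

/-- `n` is a `π'`-number: no prime divisor of `n` lies in `π`. -/
def IsPiPrimeNumber (π : Set ℕ) (n : ℕ) : Prop := ∀ p : ℕ, p.Prime → p ∣ n → p ∉ π

/-- `H` is a Hall `π`-subgroup of the (finite) group `G`: `|H|` is a `π`-number and `|G : H|` is a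
`π'`-number. -/
def IsHall {G : Type*} [Group G] (π : Set ℕ) (H : Subgroup G) : Prop :=
  IsPiNumber π (Nat.card H) ∧ IsPiPrimeNumber π H.index

/-- `σ` is a partition of the set of all primes into nonempty pairwise disjoint sets. -/
structure IsPrimePartition {I : Type*} (σ : I → Set ℕ) : Prop where
  nonempty : ∀ i, (σ i).Nonempty
  prime : ∀ i, ∀ p ∈ σ i, p.Prime
  disjoint : ∀ i j, i ≠ j → Disjoint (σ i) (σ j)
  cover : ∀ p : ℕ, p.Prime → ∃ i, p ∈ σ i

/-- A finite group is `σ`-primary if its order is a `σ i`-number for some `i`. -/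
def IsSigmaPrimary {I : Type*} (σ : I → Set ℕ) (G : Type*) [Group G] : Prop :=
  ∃ i, IsPiNumber (σ i) (Nat.card G)

/-- `σ`-subnormal subgroups: `A` is `σ`-subnormal in `G` if there is a chain from `A` to `G` in
which each term `A'` is either normal in the next term `B`, or `B / Core_B(A')` is
`σ`-primary. -/
inductive IsSigmaSubnormal {I : Type*} (σ : I → Set ℕ) {G : Type*} [Group G] : Subgroup G → Prop
  | top : IsSigmaSubnormal σ (⊤ : Subgroup G)
  | step (A B : Subgroup G) (hAB : A ≤ B) (hB : IsSigmaSubnormal σ B)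
      (h : (A.subgroupOf B).Normal ∨ IsSigmaPrimary σ (B ⧸ (A.subgroupOf B).normalCore)) :
      IsSigmaSubnormal σ A

/-- `H / K` is a chief factor of `G`: `K < H` are normal in `G` and no normal subgroup of `G` lies
strictly between them. -/
def IsChiefFactor {G : Type*} [Group G] (K H : Subgroup G) : Prop :=
  K.Normal ∧ H.Normal ∧ K < H ∧ ∀ L : Subgroup G, L.Normal → K ≤ L → L ≤ H → L = K ∨ L = H

/-- `G` is `σ`-soluble: every chief factor `H / K` of `G` is `σ`-primary, i.e. `|H : K|` is a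
`σ i`-number for some `i`. -/
def IsSigmaSoluble {I : Type*} (σ : I → Set ℕ) (G : Type*) [Group G] : Prop :=
  ∀ K H : Subgroup G, IsChiefFactor K H → ∃ i, IsPiNumber (σ i) (K.relIndex H)

/-! ### Arithmetic -/

theorem IsPiNumber.of_dvd {π : Set ℕ} {m n : ℕ} (h : IsPiNumber π n) (hmn : m ∣ n) :
    IsPiNumber π m := fun p hp hpm => h p hp (hpm.trans hmn)

theorem IsPiPrimeNumber.of_dvd {π : Set ℕ} {m n : ℕ} (h : IsPiPrimeNumber π n) (hmn : m ∣ n) :
    IsPiPrimeNumber π m := fun p hp hpm => h p hp (hpm.trans hmn)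

theorem IsPiPrimeNumber.mul {π : Set ℕ} {m n : ℕ} (hm : IsPiPrimeNumber π m)
    (hn : IsPiPrimeNumber π n) : IsPiPrimeNumber π (m * n) := by
  intro p hp hpmn
  rcases (hp.dvd_mul).1 hpmn with h | h
  · exact hm p hp h
  · exact hn p hp h

theorem IsPiNumber.mul {π : Set ℕ} {m n : ℕ} (hm : IsPiNumber π m)
    (hn : IsPiNumber π n) : IsPiNumber π (m * n) := by
  intro p hp hpmn
  rcases (hp.dvd_mul).1 hpmn with h | h
  · exact hm p hp h
  · exact hn p hp h

theorem isPiNumber_one (π : Set ℕ) : IsPiNumber π 1 := by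
  intro p hp h
  exact absurd (Nat.dvd_one.1 h) hp.one_lt.ne'

theorem eq_one_of_isPiNumber_of_isPiPrimeNumber {π : Set ℕ} {n : ℕ} (h : IsPiNumber π n)
    (h' : IsPiPrimeNumber π n) : n = 1 := by
  by_contra hn
  obtain ⟨p, hp, hpn⟩ := Nat.exists_prime_and_dvd hn
  exact h' p hp hpn (h p hp hpn)

theorem IsPrimePartition.piPrime_of_ne {I : Type*} {σ : I → Set ℕ} (hσ : IsPrimePartition σ)
    {i j : I} (hij : i ≠ j) {n : ℕ} (h : IsPiNumber (σ i) n) : IsPiPrimeNumber (σ j) n := by
  intro p hp hpn hpj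
  exact Set.disjoint_left.1 (hσ.disjoint i j hij) (h p hp hpn) hpj

/-! ### Group theory -/

section

variable {G : Type*} [Group G]

/-- Product formula for a normal subgroup `X`: `|K X : K| = |X : K ∩ X|`. -/
theorem relIndex_sup_of_normal [Finite G] (K X : Subgroup G) [X.Normal] :
    K.relIndex (K ⊔ X) = K.relIndex X := by
  have h1 : Nat.card K * K.relIndex (K ⊔ X) = Nat.card (K ⊔ X : Subgroup G) := by
    have h := Subgroup.card_mul_index (K.subgroupOf (K ⊔ X))
    rwa [Nat.card_congr (Subgroup.subgroupOfEquivOfLe (le_sup_left : K ≤ K ⊔ X)).toEquiv] at h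
  have h2 : Nat.card X * X.relIndex (K ⊔ X) = Nat.card (K ⊔ X : Subgroup G) := by
    have h := Subgroup.card_mul_index (X.subgroupOf (K ⊔ X))
    rwa [Nat.card_congr (Subgroup.subgroupOfEquivOfLe (le_sup_right : X ≤ K ⊔ X)).toEquiv] at h
  rw [Subgroup.relIndex_sup_right] at h2
  have h3 : Nat.card (K ⊓ X : Subgroup G) * K.relIndex X = Nat.card X := by
    have h := Subgroup.card_mul_index ((K ⊓ X).subgroupOf X)
    rw [Nat.card_congr (Subgroup.subgroupOfEquivOfLe (inf_le_right : K ⊓ X ≤ X)).toEquiv] at h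
    rwa [← Subgroup.relIndex, Subgroup.inf_relIndex_right] at h
  have h4 : Nat.card (K ⊓ X : Subgroup G) * X.relIndex K = Nat.card K := by
    have h := Subgroup.card_mul_index ((K ⊓ X).subgroupOf K)
    rw [Nat.card_congr (Subgroup.subgroupOfEquivOfLe (inf_le_left : K ⊓ X ≤ K)).toEquiv] at h
    rwa [← Subgroup.relIndex, Subgroup.inf_relIndex_left] at h
  have hpos : 0 < Nat.card K := Nat.card_pos
  apply Nat.eq_of_mul_eq_mul_left hpos
  rw [h1, ← h2, ← h3, mul_right_comm, h4]

/-- A normal `π`-subgroup lies in every subgroup of `π'`-index. -/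
theorem le_of_normal_of_piPrime_index [Finite G] {π : Set ℕ} {X K : Subgroup G} [X.Normal]
    (hX : IsPiNumber π (Nat.card X)) (hK : IsPiPrimeNumber π K.index) : X ≤ K := by
  rw [← Subgroup.relIndex_eq_one]
  apply eq_one_of_isPiNumber_of_isPiPrimeNumber (π := π)
  · exact hX.of_dvd (Subgroup.relIndex_dvd_card K X)
  · rw [← relIndex_sup_of_normal K X]
    exact hK.of_dvd (Subgroup.relIndex_dvd_index_of_le le_sup_left)

theorem relIndex_map_map_dvd {G' : Type*} [Group G'] (f : G →* G')
    (H K : Subgroup G) : (H.map f).relIndex (K.map f) ∣ H.relIndex K := by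
  have h1 : (H.subgroupOf K).map (f.subgroupMap K) ≤ (H.map f).subgroupOf (K.map f) := by
    rintro _ ⟨x, hx, rfl⟩
    rw [Subgroup.mem_subgroupOf]
    exact ⟨x, Subgroup.mem_subgroupOf.1 hx, rfl⟩
  exact (Subgroup.index_dvd_of_le h1).trans
    (Subgroup.index_map_dvd _ (f.subgroupMap_surjective K))

theorem map_conj_smul {G' : Type*} [Group G'] (f : G →* G') (g : G) (H : Subgroup G) :
    (MulAut.conj g • H).map f = MulAut.conj (f g) • H.map f := by
  ext x
  simp only [Subgroup.mem_map, Subgroup.mem_smul_pointwise_iff_exists]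
  constructor
  · rintro ⟨_, ⟨h, hh, rfl⟩, rfl⟩
    exact ⟨f h, ⟨h, hh, rfl⟩, by simp [MulAut.smul_def]⟩
  · rintro ⟨_, ⟨h, hh, rfl⟩, rfl⟩
    exact ⟨MulAut.conj g • h, ⟨h, hh, rfl⟩, by simp [MulAut.smul_def]⟩

end

/-! ### The intersection hypothesis for one conjugacy class of Hall subgroups -/

/-- The working hypothesis: `H i` is a Hall `σ i`-subgroup of `G`, and for every conjugate of
`H i` the intersection with `A` has `(σ i)'`-index in `A`. -/
def Star {I : Type*} (σ : I → Set ℕ) {G : Type*} [Group G] (H : I → Subgroup G)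
    (A : Subgroup G) : Prop :=
  ∀ i, IsHall (σ i) (H i) ∧
    ∀ g : G, IsPiPrimeNumber (σ i) ((MulAut.conj g • H i).relIndex A)

theorem Star.map {I : Type*} {σ : I → Set ℕ} {G : Type*} [Group G] {H : I → Subgroup G}
    {A : Subgroup G} (h : Star σ H A) {G' : Type*} [Group G'] (f : G →* G')
    (hf : Function.Surjective f) : Star σ (fun i => (H i).map f) (A.map f) := by
  intro i
  refine ⟨⟨(h i).1.1.of_dvd ((H i).card_map_dvd f),
    (h i).1.2.of_dvd (Subgroup.index_map_dvd (H i) hf)⟩, ?_⟩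
  intro g'
  obtain ⟨g, rfl⟩ := hf g'
  rw [← map_conj_smul]
  exact ((h i).2 g).of_dvd (relIndex_map_map_dvd f _ _)

section

variable {I : Type*} {σ : I → Set ℕ} {G : Type*} [Group G]

theorem isHall_conj_smul {π : Set ℕ} {H : Subgroup G} (h : IsHall π H) (g : G) :
    IsHall π (MulAut.conj g • H) := by
  refine ⟨?_, ?_⟩
  · have : Nat.card (MulAut.conj g • H : Subgroup G) = Nat.card H :=
      (Nat.card_congr (Subgroup.equivSMul (MulAut.conj g) H).toEquiv).symm
    rw [this]; exact h.1
  · have : (MulAut.conj g • H).index = H.index := by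
      have := Subgroup.index_map_equiv (H := H) (MulAut.conj g)
      exact this
    rw [this]; exact h.2

/-- The normal core of a Hall subgroup contains every normal `π`-subgroup of `A`, if `A` meets all
conjugates of the Hall subgroup in a Hall subgroup of `A`. -/
theorem map_le_normalCore [Finite G] {H : I → Subgroup G} {A : Subgroup G} (h : Star σ H A) {i : I}
    {X : Subgroup A} [X.Normal] (hX : IsPiNumber (σ i) (Nat.card X)) :
    X.map A.subtype ≤ (H i).normalCore := by
  rintro _ ⟨x, hx, rfl⟩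
  intro g
  have h1 : IsPiPrimeNumber (σ i) ((MulAut.conj g⁻¹ • H i).subgroupOf A).index := (h i).2 g⁻¹
  have h2 := le_of_normal_of_piPrime_index hX h1 hx
  rw [Subgroup.mem_subgroupOf, Subgroup.mem_pointwise_smul_iff_inv_smul_mem] at h2
  simpa [MulAut.smul_def, ← map_inv] using h2

end

end Pool.Agent.Lib.MP_8113ca_al
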