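import Pool.Agent.Lib.MP_8113ca_al.Step

set_option autoImplicit false

open scoped Pointwise

namespace Pool.Agent.Lib.MP_8113ca_al

variable {I : Type*} {σ : I → Set ℕ}

/-- Homomorphic images of `σ`-soluble groups are `σ`-soluble. -/
theorem IsSigmaSoluble.of_surjective {A B : Type*} [Group A] [Group B] (f : A →* B)
    (hf : Function.Surjective f) (h : IsSigmaSoluble σ A) : IsSigmaSoluble σ B := by
  rintro K H ⟨hK, hH, hKH, hmin⟩
  have hc : IsChiefFactor (K.comap f) (H.comap f) := by
    refine ⟨hK.comap f, hH.comap f, ?_, ?_⟩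
    · refine lt_of_le_of_ne (Subgroup.comap_mono hKH.le) fun he => ?_
      exact hKH.ne (Subgroup.comap_injective hf he)
    · intro L hL hKL hLH
      have h1 : (L.map f).comap f = L := by
        apply Subgroup.comap_map_eq_self
        exact le_trans (f.ker_le_comap K) hKL
      have h2 : K ≤ L.map f := by
        have := Subgroup.map_mono (f := f) hKL
        rwa [Subgroup.map_comap_eq_self_of_surjective hf] at this
      have h3 : L.map f ≤ H := by
        have := Subgroup.map_mono (f := f) hLH
        rwa [Subgroup.map_comap_eq_self_of_surjective hf] at this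
      rcases hmin (L.map f) (hL.map f hf) h2 h3 with h4 | h4
      · left; rw [← h1, h4]
      · right; rw [← h1, h4]
  obtain ⟨i, hi⟩ := h _ _ hc
  refine ⟨i, ?_⟩
  rwa [relIndex_comap_comap_of_surjective f hf] at hi

/-- A nontrivial finite group has a minimal normal subgroup. -/
theorem exists_min_normal (A : Type*) [Group A] [Finite A] [Nontrivial A] :
    ∃ X : Subgroup A, IsChiefFactor ⊥ X := by
  obtain ⟨X, hX, hmin⟩ := wellFounded_lt.has_min
    {X : Subgroup A | X.Normal ∧ X ≠ ⊥} ⟨⊤, inferInstance, top_ne_bot⟩
  refine ⟨X, inferInstance, hX.1, bot_lt_iff_ne_bot.2 hX.2, ?_⟩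
  intro L hL _ hLX
  by_cases hL0 : L = ⊥
  · exact Or.inl hL0
  · right
    by_contra hne
    exact hmin L ⟨hL, hL0⟩ (lt_of_le_of_ne hLX hne)

/-- **Theorem.** If `A` is `σ`-soluble and meets every conjugate of a Hall `σ i`-subgroup
`H i` of `G` in a Hall `σ i`-subgroup of `A`, then `A` is `σ`-subnormal in `G`. -/
theorem isSigmaSubnormal_of_star (hσ : IsPrimePartition σ) (n : ℕ) :
    ∀ (G : Type*) [Group G] [Finite G], Nat.card G = n → ∀ (H : I → Subgroup G) (A : Subgroup G),
      Star σ H A → IsSigmaSoluble σ A → IsSigmaSubnormal σ A := by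
  induction n using Nat.strong_induction_on with
  | _ n ih =>
    intro G _ _ hG H A hstar hsol
    by_cases hA : A = ⊥
    · subst hA
      refine .step _ ⊤ bot_le .top (Or.inl ?_)
      have : (⊥ : Subgroup G).subgroupOf ⊤ = ⊥ := by
        ext ⟨x, hx⟩
        simp
      rw [this]
      infer_instance
    · have hnt : Nontrivial A := (Subgroup.nontrivial_iff_ne_bot A).2 hA
      obtain ⟨X, hX⟩ := exists_min_normal A
      obtain ⟨i, hi⟩ := hsol _ _ hX
      rw [Subgroup.relIndex_bot_left] at hi
      have hXn : X.Normal := hX.2.1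
      set N : Subgroup G := (H i).normalCore with hNdef
      have hNn : N.Normal := Subgroup.normalCore_normal _
      have hXN : X.map A.subtype ≤ N := map_le_normalCore hstar hi
      have hNi : IsPiNumber (σ i) (Nat.card N) :=
        (hstar i).1.1.of_dvd (Subgroup.card_dvd_of_le (Subgroup.normalCore_le _))
      have hN0 : N ≠ ⊥ := by
        intro h0
        rw [h0, le_bot_iff, Subgroup.map_eq_bot_iff_of_injective _ A.subtype_injective] at hXN
        exact hX.2.2.1.ne hXN.symm
      have hcard : Nat.card (G ⧸ N) < n := by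
        rw [← Subgroup.index_eq_card, ← hG, ← N.card_mul_index]
        have h1 : 1 < Nat.card N := by
          by_contra hle
          exact hN0 ((Subgroup.card_le_one_iff_eq_bot N).1 (by omega))
        have h2 : 0 < N.index := Nat.pos_of_ne_zero Subgroup.index_ne_zero_of_finite
        nlinarith
      have hq := ih _ hcard (G ⧸ N) rfl (fun i => (H i).map (QuotientGroup.mk' N))
        (A.map (QuotientGroup.mk' N))
        (hstar.map (QuotientGroup.mk' N) (QuotientGroup.mk'_surjective N))
        (hsol.of_surjective _ ((QuotientGroup.mk' N).subgroupMap_surjective A))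
      have h3 := hq.comap (QuotientGroup.mk' N) (QuotientGroup.mk'_surjective N)
      rw [Subgroup.comap_map_eq, QuotientGroup.ker_mk'] at h3
      exact step_sup_of_sigma_normal hσ hstar hNi h3

end Pool.Agent.Lib.MP_8113ca_al
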