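import Pool.Agent.Lib.MP_8113ca_al.Basic

set_option autoImplicit false

open scoped Pointwise

namespace Pool.Agent.Lib.MP_8113ca_al

section

variable {I : Type*} {σ : I → Set ℕ} {G : Type*} [Group G]

/-- To see that one step `A ≤ B` is allowed it suffices to find `D ≤ A` normal in `B` with
`|B : D|` a `σ i`-number. -/
theorem IsSigmaSubnormal.step_of_le {A B D : Subgroup G} (hAB : A ≤ B)
    (hB : IsSigmaSubnormal σ B) (hDA : D ≤ A) (hDB : (D.subgroupOf B).Normal) {i : I}
    (hi : IsPiNumber (σ i) (D.relIndex B)) : IsSigmaSubnormal σ A := by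
  refine .step A B hAB hB (Or.inr ⟨i, ?_⟩)
  rw [← Subgroup.index_eq_card]
  refine hi.of_dvd ?_
  have h1 : D.subgroupOf B ≤ (A.subgroupOf B).normalCore := by
    rw [Subgroup.normal_le_normalCore]
    exact fun x hx => Subgroup.mem_subgroupOf.2 (hDA (Subgroup.mem_subgroupOf.1 hx))
  exact Subgroup.index_dvd_of_le h1

theorem relIndex_map_subtype {B : Subgroup G} (C : Subgroup B) :
    (C.map B.subtype).relIndex B = C.index := by
  have h2 : (C.map B.subtype).comap B.subtype = C :=
    Subgroup.comap_map_eq_self_of_injective (Subgroup.subtype_injective B) C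
  show ((C.map B.subtype).comap B.subtype).index = C.index
  rw [h2]

theorem relIndex_comap_comap_of_surjective {G' : Type*} [Group G'] (f : G →* G')
    (hf : Function.Surjective f) (C B : Subgroup G') :
    (C.comap f).relIndex (B.comap f) = C.relIndex B := by
  have h3 := Subgroup.relIndex_comap (H := C) f (B.comap f)
  have h4 : (B.comap f).map f = B := Subgroup.map_comap_eq_self_of_surjective hf B
  rw [h4] at h3
  exact h3

theorem exists_core {A B : Subgroup G}
    (h : IsSigmaPrimary σ (B ⧸ (A.subgroupOf B).normalCore)) :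
    ∃ (i : I) (D : Subgroup G), D ≤ A ∧ (D.subgroupOf B).Normal ∧
      IsPiNumber (σ i) (D.relIndex B) := by
  obtain ⟨i, hi⟩ := h
  have hn : ((A.subgroupOf B).normalCore).Normal := Subgroup.normalCore_normal _
  have hc : (((A.subgroupOf B).normalCore).map B.subtype).subgroupOf B =
      (A.subgroupOf B).normalCore :=
    Subgroup.comap_map_eq_self_of_injective (Subgroup.subtype_injective B) _
  refine ⟨i, ((A.subgroupOf B).normalCore).map B.subtype, ?_, ?_, ?_⟩
  · rintro _ ⟨x, hx, rfl⟩
    exact Subgroup.mem_subgroupOf.1 ((Subgroup.normalCore_le _) hx)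
  · rw [hc]; exact hn
  · rw [relIndex_map_subtype]; exact hi

/-- Preimages of `σ`-subnormal subgroups under surjective homomorphisms are `σ`-subnormal. -/
theorem IsSigmaSubnormal.comap {G' : Type*} [Group G'] (f : G →* G')
    (hf : Function.Surjective f) {A : Subgroup G'} (hA : IsSigmaSubnormal σ A) :
    IsSigmaSubnormal σ (A.comap f) := by
  induction hA with
  | top => rw [Subgroup.comap_top]; exact .top
  | step A B hAB hB h ih =>
    rcases h with h | h
    · refine .step _ _ (Subgroup.comap_mono hAB) ih (Or.inl ?_)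
      constructor
      rintro ⟨x, hx⟩ hxA ⟨g, hg⟩
      rw [Subgroup.mem_subgroupOf] at hxA ⊢
      have := h.conj_mem ⟨f x, hx⟩ (Subgroup.mem_subgroupOf.2 hxA) ⟨f g, hg⟩
      rw [Subgroup.mem_subgroupOf] at this
      simpa using this
    · obtain ⟨i, D, hDA, hDn, hD⟩ := exists_core h
      refine IsSigmaSubnormal.step_of_le (D := D.comap f)
        (Subgroup.comap_mono hAB) ih (Subgroup.comap_mono hDA) ?_ (i := i) ?_
      · constructor
        rintro ⟨x, hx⟩ hxC ⟨g, hg⟩
        rw [Subgroup.mem_subgroupOf] at hxC ⊢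
        have := hDn.conj_mem ⟨f x, hx⟩ (Subgroup.mem_subgroupOf.2 hxC) ⟨f g, hg⟩
        rw [Subgroup.mem_subgroupOf] at this
        simpa using this
      · rw [relIndex_comap_comap_of_surjective f hf]
        exact hD

/-- For a normal `σ i`-subgroup `N` of `G`, the subgroup `A` is one `σ`-step below `A ⊔ N`. -/
theorem step_sup_of_sigma_normal [Finite G] (hσ : IsPrimePartition σ) {H : I → Subgroup G}
    {A : Subgroup G} (h : Star σ H A) {i : I} {N : Subgroup G} [N.Normal]
    (hN : IsPiNumber (σ i) (Nat.card N)) (hM : IsSigmaSubnormal σ (A ⊔ N)) :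
    IsSigmaSubnormal σ A := by
  set M := A ⊔ N with hMdef
  -- Step 1: Hall subgroups for `j ≠ i` meet `M` in subgroups of `A`
  have key : ∀ j, j ≠ i → ∀ g : G, (MulAut.conj g • H j) ⊓ M ≤ A ∧
      IsPiPrimeNumber (σ j) ((MulAut.conj g • H j).relIndex M) := by
    intro j hj g
    set K := MulAut.conj g • H j with hK
    have hKH : IsHall (σ j) K := isHall_conj_smul (h j).1 g
    have hKA : IsPiPrimeNumber (σ j) (K.relIndex A) := (h j).2 g
    have hMA : IsPiPrimeNumber (σ j) (A.relIndex M) := by
      rw [hMdef, relIndex_sup_of_normal A N]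
      exact (hσ.piPrime_of_ne (Ne.symm hj) hN).of_dvd (Subgroup.relIndex_dvd_card A N)
    have hKAM : IsPiPrimeNumber (σ j) ((K ⊓ A).relIndex M) := by
      rw [← Subgroup.relIndex_mul_relIndex (K ⊓ A) A M inf_le_right le_sup_left,
        Subgroup.inf_relIndex_right]
      exact hKA.mul hMA
    have h1 : (K ⊓ A).relIndex (K ⊓ M) = 1 := by
      apply eq_one_of_isPiNumber_of_isPiPrimeNumber (π := σ j)
      · refine hKH.1.of_dvd ((Subgroup.relIndex_dvd_card _ _).trans ?_)
        exact Subgroup.card_dvd_of_le inf_le_left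
      · refine hKAM.of_dvd ?_
        rw [← Subgroup.relIndex_mul_relIndex (K ⊓ A) (K ⊓ M) M
          (inf_le_inf_left K le_sup_left) inf_le_right]
        exact dvd_mul_right _ _
    have h2 : K ⊓ M ≤ K ⊓ A := Subgroup.relIndex_eq_one.1 h1
    refine ⟨h2.trans inf_le_right, hKAM.of_dvd ?_⟩
    exact Subgroup.relIndex_dvd_of_le_left M inf_le_left
  -- Step 2: the normal subgroup `D`
  set D : Subgroup G := ⨆ j : {j : I // j ≠ i}, ⨆ g : G, (MulAut.conj g • H j) ⊓ M with hD
  have hDA : D ≤ A := iSup_le fun j => iSup_le fun g => (key j j.2 g).1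
  have hDconj : ∀ m ∈ M, MulAut.conj m • D ≤ D := by
    intro m hm
    have hmap : ∀ K : Subgroup G, MulAut.conj m • K = K.map (MulAut.conj m).toMonoidHom :=
      fun K => rfl
    rw [hmap, hD, Subgroup.map_iSup]
    refine iSup_le fun j => ?_
    rw [Subgroup.map_iSup]
    refine iSup_le fun g => ?_
    rw [← hmap]
    have h1 : MulAut.conj m • ((MulAut.conj g • H j) ⊓ M) =
        (MulAut.conj (m * g) • H j) ⊓ M := by
      rw [Subgroup.smul_inf, map_mul, mul_smul]
      congr 1
      exact Subgroup.conj_smul_eq_self_of_mem hm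
    rw [h1]
    exact le_iSup_of_le j (le_iSup_of_le (m * g) le_rfl)
  have hDn : (D.subgroupOf M).Normal := by
    constructor
    rintro ⟨x, hx⟩ hxD ⟨m, hm⟩
    rw [Subgroup.mem_subgroupOf] at hxD ⊢
    apply hDconj m hm
    rw [Subgroup.mem_smul_pointwise_iff_exists]
    exact ⟨x, hxD, by simp [MulAut.smul_def]⟩
  refine IsSigmaSubnormal.step_of_le le_sup_left hM hDA hDn (i := i) ?_
  intro p hp hpD
  obtain ⟨j, hj⟩ := hσ.cover p hp
  by_cases hji : j = i
  · rwa [hji] at hj
  · exfalso
    refine (key j hji 1).2 p hp (hpD.trans ?_) hj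
    have h1 : (MulAut.conj (1 : G) • H j) ⊓ M ≤ D :=
      le_iSup_of_le (⟨j, hji⟩ : {j : I // j ≠ i}) (le_iSup_of_le 1 le_rfl)
    rw [← Subgroup.inf_relIndex_right (MulAut.conj (1 : G) • H j) M]
    exact Subgroup.relIndex_dvd_of_le_left M h1

end

end Pool.Agent.Lib.MP_8113ca_al
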